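import Pool.Agent.Helper16.N4.Cfg
import Pool.Agent.Helper94.HK.Ref

/-!
# The reference configuration of the dynamics (a curve of genus one in the first graph)
-/

set_option autoImplicit false

namespace Pool.Agent.Helper94.N4

open Pool.Agent.Helper28.HN (I aff)
open Pool.Agent.Helper64.HK Pool.Agent.Helper24.HM Pool.Agent.Helper24.HK
open Pool.Agent.Helper16.N4
open Pool.Agent.Helper94.HN (norm_two norm_add_le' norm_mul_le' norm_add_eq unit_prod)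
open Pool.Agent.Helper94.HK.Fr (Fh_eq tr_tr')

variable {p : ℕ} [Fact p.Prime] {k m : ℕ} {a : Fin (k + 1) → Fin (m + 1)}

/-- The factors of `Pa4` are units. -/
theorem units_of_Pa4 (c : Ix a → ℤ_[p]) (s : Sel4 k m) (x : Un4 k m → ℤ_[p])
    (h : IsUnit (Pa4 c s x)) :
    ‖(Mx c (pt (rd s x))).det‖ = 1 ∧
    (∀ b b' : Lt k m, b ≠ b' → ‖rd s x (.inr b) - rd s x (.inr b')‖ = 1) ∧
    (∀ q : Fin k × Fin (m + 1), ‖(Nx c q.1.succ (Xz c (pt (rd s x)) (x (.z q)))).det‖ = 1) ∧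
    (∀ q : Fin k × Fin (m + 1), ‖kah c q.1.succ (pt (rd s x)) (x (.z q))‖ = 1) ∧
    (∀ q : Fin k × Fin (m + 1), ‖th c q.1.succ (pt (rd s x)) (x (.z q))‖ = 1) ∧
    (∀ q : Fin k × Fin (m + 1),
      ‖(psP c q.1.succ (pt (rd s x))).derivative.eval (x (.z q))‖ = 1) ∧
    (∀ (q : Fin k × Fin (m + 1)) (b : Lt k m), b ≠ some q → ¬ (q = s.m' ∧ b = some s.j) →
      ‖qh c q.1.succ (pt (rd s x)) (xq c s x q) (rd s x (.inr b))‖ = 1) ∧
    (∀ l : Fin k, ‖(Vm c (rd s x) l).det‖ = 1) ∧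
    ‖qh c s.f.succ (pt (rd s x)) (dr x) (x (.z s.j))‖ = 1 := by
  unfold Pa4 at h
  rw [IsUnit.mul_iff, IsUnit.mul_iff, IsUnit.mul_iff, IsUnit.mul_iff, IsUnit.mul_iff,
    IsUnit.mul_iff, IsUnit.mul_iff, IsUnit.mul_iff] at h
  obtain ⟨⟨⟨⟨⟨⟨⟨⟨h1, h2⟩, h3⟩, h4⟩, h4'⟩, h5⟩, h6⟩, h7⟩, h9⟩ := h
  refine ⟨PadicInt.isUnit_iff.1 h1, fun b b' hab => ?_,
    fun b => PadicInt.isUnit_iff.1 (unit_prod h3 b),
    fun q => PadicInt.isUnit_iff.1 (unit_prod h4 q), fun q => PadicInt.isUnit_iff.1 (unit_prod h4' q),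
    fun q => PadicInt.isUnit_iff.1 (unit_prod h5 q), fun q b hab hn => ?_,
    fun l => PadicInt.isUnit_iff.1 (unit_prod h7 l), PadicInt.isUnit_iff.1 h9⟩
  · have h8 := unit_prod (unit_prod h2 b) b'
    rw [if_neg hab] at h8
    exact PadicInt.isUnit_iff.1 h8
  · have h8 := unit_prod (unit_prod h6 q) b
    rw [if_neg (not_or.2 ⟨hab, hn⟩)] at h8
    exact PadicInt.isUnit_iff.1 h8

/-- The form is small at the base point. -/
theorem norm_Fh_le (c : Ix a → ℤ_[p]) (s : Sel4 k m) (x : Un4 k m → ℤ_[p]) (h : Cfg4 c s x) :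
    ‖2 * Bh c (pt (rd s x))‖ ≤ (p : ℝ) ^ (-2 : ℤ) ∧ ‖Ch c (pt (rd s x))‖ ≤ (p : ℝ) ^ (-2 : ℤ) ∧
      ∀ z, ‖Fh c (pt (rd s x)) z‖ ≤ (p : ℝ) ^ (-2 : ℤ) := by
  have hz := (units_of_Pa4 c s x h.hPa).2.1
  have hne : (s.y : ℤ_[p]) - x (.z s.j) ≠ 0 := by
    intro h0
    have h1 : ‖(s.y : ℤ_[p]) - x (.z s.j)‖ = 1 := hz none (some s.j) (Option.some_ne_none _).symm
    rw [h0, norm_zero] at h1
    exact one_ne_zero h1.symm
  have hy := h.Fy
  have hj := h.Fj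
  rw [Fh_eq] at hy hj
  have hA := h.hA.le
  have h2B : 2 * Bh c (pt (rd s x)) = -((s.y : ℤ_[p]) + x (.z s.j)) * Ah c (pt (rd s x)) := by
    refine mul_left_cancel₀ hne ?_
    linear_combination hy - hj
  have hC : Ch c (pt (rd s x)) = ((s.y : ℤ_[p]) * x (.z s.j)) * Ah c (pt (rd s x)) := by
    linear_combination hy - (s.y : ℤ_[p]) * h2B
  have h3 : ‖2 * Bh c (pt (rd s x))‖ ≤ (p : ℝ) ^ (-2 : ℤ) := by
    rw [h2B]
    exact norm_mul_le' _ hA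
  have h4 : ‖Ch c (pt (rd s x))‖ ≤ (p : ℝ) ^ (-2 : ℤ) := by
    rw [hC]
    exact norm_mul_le' _ hA
  refine ⟨h3, h4, fun z => ?_⟩
  rw [Fh_eq]
  have h5 : Ah c (pt (rd s x)) * z ^ 2 + 2 * Bh c (pt (rd s x)) * z + Ch c (pt (rd s x)) =
      z ^ 2 * Ah c (pt (rd s x)) + z * (2 * Bh c (pt (rd s x))) + Ch c (pt (rd s x)) := by ring
  rw [h5]
  exact norm_add_le' (norm_add_le' (norm_mul_le' _ hA) (norm_mul_le' _ h3)) h4

theorem exists_ref4 {p : ℕ} [Fact p.Prime] (hp : p ≠ 2) {k m : ℕ} {a : Fin (k + 1) → Fin (m + 1)}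
    (c : Ix a → ℤ_[p]) (s : Sel4 k m) (x : Un4 k m → ℤ_[p]) (h : Cfg4 c s x)
    (L : LocM p (k * (m + 1)) (Fin k)) (hL : IsLoc c L) :
    ∃ R : RefM L (Lt k m), IsRef4 s x R := by
  obtain ⟨hD, hz, hN, hk, hr, hps, hq, hV, hd⟩ := units_of_Pa4 c s x h.hPa
  obtain ⟨hBs, hCs, hFs⟩ := norm_Fh_le c s x h
  have hp1 : (1 : ℝ) < p := by exact_mod_cast (Fact.out : p.Prime).one_lt
  have hp12 : (p : ℝ) ^ (-2 : ℤ) < (p : ℝ) ^ (-1 : ℤ) := zpow_lt_zpow_right₀ hp1 (by norm_num)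
  have hp01 : (p : ℝ) ^ (-1 : ℤ) < 1 := zpow_lt_one_of_neg₀ hp1 (by norm_num)
  have hpt : ct (tr (tr' fun q => x (.u q))) = pt (rd s x) := by
    rw [tr_tr']
    rfl
  have hdF : ∀ (q : Fin k × Fin (m + 1)) (b : Lt k m), ∃ d, L.dF (tr' fun q => x (.u q))
      (L.xi q.1 (tr' fun q => x (.u q)) (x (.z q))) (rd s x (.inr b)) =
      qh c q.1.succ (pt (rd s x)) (xq c s x q) (rd s x (.inr b)) +
        d * Fh c (pt (rd s x)) (rd s x (.inr b)) := by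
    intro q b
    rw [hL.hxi, hpt]
    obtain ⟨d, hd1, -⟩ := hL.hd q.1 (tr' fun q => x (.u q))
      (vh c q.1.succ (Xz c (pt (rd s x)) (x (.z q))))
    refine ⟨d, ?_⟩
    rw [hd1, hpt]
    rfl
  have hsm : ∀ (d z : ℤ_[p]), ‖d * Fh c (pt (rd s x)) z‖ ≤ (p : ℝ) ^ (-2 : ℤ) :=
    fun d z => norm_mul_le' _ (hFs z)
  refine ⟨⟨tr' fun q => x (.u q), fun b => rd s x (.inr b), s.ty, none, some s.j, some s.m',
    some s.l, ?_, ?_, ?_, ?_, ?_, ?_, hz, ?_, ?_, ?_, ?_, ?_, ?_, ?_, ?_⟩,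
    ⟨rfl, rfl, rfl, rfl, rfl, rfl, rfl⟩⟩
  · exact fun h' => s.hjm (Option.some_injective _ h')
  · exact fun h' => s.hml (Option.some_injective _ h')
  · exact fun h' => s.hlj (Option.some_injective _ h')
  · exact (Option.some_ne_none _).symm
  · exact (Option.some_ne_none _).symm
  · exact (Option.some_ne_none _).symm
  · intro b hb
    obtain ⟨q, rfl⟩ := Option.ne_none_iff_exists'.1 hb
    have h1 : psh c (s.ty (some q)).succ (pt (rd s x)) (rd s x (.inr (some q))) = 0 := h.psi q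
    rw [hL.hpsi, hpt, h1, mul_zero]
  · intro b hb
    obtain ⟨q, rfl⟩ := Option.ne_none_iff_exists'.1 hb
    have h1 : psh c (s.ty (some q)).succ (ct (tr (tr' fun q => x (.u q))))
        (rd s x (.inr (some q))) = 0 := by
      rw [hpt]
      exact h.psi q
    rw [hL.hsl _ _ _ h1, hpt, norm_mul, norm_mul, norm_two hp, one_mul]
    have h2 := hr q
    have h3 := hps q
    show ‖th c q.1.succ (pt (rd s x)) (x (.z q))‖ * ‖(psP c q.1.succ (pt (rd s x))).derivative.eval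
      (x (.z q))‖ = 1
    rw [h2, h3, one_mul]
  · intro b hb
    obtain ⟨q, rfl⟩ := Option.ne_none_iff_exists'.1 hb
    rw [hL.hkap, hpt, norm_mul]
    show ‖th c q.1.succ (pt (rd s x)) (x (.z q))‖ * ‖kah c q.1.succ (pt (rd s x)) (x (.z q))‖ = 1
    rw [hr q, hk q, one_mul]
  · intro b b' hab hb' hn
    obtain ⟨q, rfl⟩ := Option.ne_none_iff_exists'.1 hb'
    obtain ⟨d, hd1⟩ := hdF q b
    have h2 : ‖qh c q.1.succ (pt (rd s x)) (xq c s x q) (rd s x (.inr b))‖ = 1 := by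
      refine hq q b hab ?_
      rintro ⟨h3, h4⟩
      rcases hn with h5 | h5
      · exact h5 h4
      · exact h5 (congrArg some h3)
    show ‖L.dF (tr' fun q => x (.u q)) (L.xi q.1 (tr' fun q => x (.u q)) (x (.z q)))
      (rd s x (.inr b))‖ = 1
    rw [hd1, norm_add_eq, h2]
    rw [h2]
    exact (hsm _ _).trans_lt (hp12.trans hp01)
  · obtain ⟨d, hd1⟩ := hdF s.m' (some s.j)
    have h3 : ‖qh c s.m'.1.succ (pt (rd s x)) (xq c s x s.m') (rd s x (.inr (some s.j)))‖ =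
      (p : ℝ) ^ (-1 : ℤ) := h.hq
    show ‖L.dF (tr' fun q => x (.u q)) (L.xi s.m'.1 (tr' fun q => x (.u q)) (x (.z s.m')))
      (rd s x (.inr (some s.j)))‖ = (p : ℝ) ^ (-1 : ℤ)
    rw [hd1, norm_add_eq, h3]
    rw [h3]
    exact (hsm _ _).trans_lt hp12
  · rw [hL.hA, hpt]
    exact norm_mul_le' _ h.hA.le
  · rw [hL.hB, hpt]
    exact norm_mul_le' _ hBs
  · rw [hL.hC, hpt]
    exact norm_mul_le' _ hCs

end Pool.Agent.Helper94.N4
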