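import Pool.Agent.Helper16.N4.Cfg
import Pool.Agent.Helper55.HK.Sp

/-!
# Units in the ball about the base point (a curve of genus one in the first graph)
-/

set_option autoImplicit false

namespace Pool.Agent.Helper94.N4

open Pool.Agent.Helper28.HN (I aff)
open Pool.Agent.Helper64.HK Pool.Agent.Helper24.HM Pool.Agent.Helper24.HK
open Pool.Agent.Helper16.N4
open Pool.Agent.Helper24.HN (V cst)
open Pool.Agent.Helper55.HK (det_unit_of_res emL emL_cst sum_emL)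

variable {p : ℕ} [Fact p.Prime] {k m : ℕ} {a : Fin (k + 1) → Fin (m + 1)}

/-- The point and its reduction. -/
theorem res_ct (s : Sel4 k m) (x : Un4 k m → ℤ_[p]) (v : Fin k × Fin (m + 1) → ℤ_[p])
    (hv : ∀ q, ‖v q - x (.u q)‖ ≤ (p : ℝ) ^ (-2 : ℤ)) :
    (fun j l => IsLocalRing.residue ℤ_[p] (ct v j l)) =
      fun j l => IsLocalRing.residue ℤ_[p] (pt (rd s x) j l) := by
  rw [pt, Pool.Agent.Helper94.HK.map_ct, Pool.Agent.Helper94.HK.map_ct]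
  congr 1
  funext q
  exact Pool.Agent.Helper55.HM.residue_eq (hv q)

/-- The point over `t` and its reduction. -/
theorem res_Xz (c : Ix a → ℤ_[p]) (s : Sel4 k m) (x : Un4 k m → ℤ_[p])
    (v : Fin k × Fin (m + 1) → ℤ_[p])
    (hv : ∀ q, ‖v q - x (.u q)‖ ≤ (p : ℝ) ^ (-2 : ℤ)) (q : Fin k × Fin (m + 1)) (z : ℤ_[p])
    (hz : ‖z - x (.z q)‖ ≤ (p : ℝ) ^ (-2 : ℤ)) :
    (fun j l => IsLocalRing.residue ℤ_[p] (Xz c (ct v) z j l)) =
      fun j l => IsLocalRing.residue ℤ_[p] (Xz c (pt (rd s x)) (x (.z q)) j l) := by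
  rw [Pool.Agent.Helper94.HK.map_Xz, Pool.Agent.Helper94.HK.map_Xz, res_ct s x v hv,
    Pool.Agent.Helper55.HM.residue_eq hz]

section un

variable {p : ℕ} [Fact p.Prime] {k m : ℕ} {a : Fin (k + 1) → Fin (m + 1)} (c : Ix a → ℤ_[p])
  (s : Sel4 k m) (x : Un4 k m → ℤ_[p]) (h : Cfg4 c s x)

include h

theorem detM_unit4 (v : Fin k × Fin (m + 1) → ℤ_[p])
    (hv : ∀ q, ‖v q - x (.u q)‖ ≤ (p : ℝ) ^ (-2 : ℤ)) : IsUnit (Mx c (ct v)).det := by
  have h1 : IsUnit (Mx c (pt (rd s x))).det := by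
    have h2 := h.hPa
    unfold Pa4 at h2
    rw [IsUnit.mul_iff, IsUnit.mul_iff, IsUnit.mul_iff, IsUnit.mul_iff, IsUnit.mul_iff,
      IsUnit.mul_iff, IsUnit.mul_iff, IsUnit.mul_iff] at h2
    exact h2.1.1.1.1.1.1.1.1
  have e1 := Pool.Agent.Helper94.HK.map_detM (IsLocalRing.residue ℤ_[p]) c (ct v)
  have e2 := Pool.Agent.Helper94.HK.map_detM (IsLocalRing.residue ℤ_[p]) c (pt (rd s x))
  rw [res_ct s x v hv, ← e2] at e1
  have h3 : IsUnit (IsLocalRing.residue ℤ_[p] (Mx c (ct v)).det) := by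
    rw [e1]
    exact h1.map _
  exact isUnit_of_map_unit _ _ h3

theorem detN_unit4 (v : Fin k × Fin (m + 1) → ℤ_[p])
    (hv : ∀ q, ‖v q - x (.u q)‖ ≤ (p : ℝ) ^ (-2 : ℤ)) (q : Fin k × Fin (m + 1)) (z : ℤ_[p])
    (hz : ‖z - x (.z q)‖ ≤ (p : ℝ) ^ (-2 : ℤ)) :
    IsUnit (Nx c q.1.succ (Xz c (ct v) z)).det := by
  have h1 : IsUnit (∏ q : Fin k × Fin (m + 1),
      (Nx c q.1.succ (Xz c (pt (rd s x)) (x (.z q)))).det) := by
    have h2 := h.hPa
    unfold Pa4 at h2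
    rw [IsUnit.mul_iff, IsUnit.mul_iff, IsUnit.mul_iff, IsUnit.mul_iff, IsUnit.mul_iff,
      IsUnit.mul_iff, IsUnit.mul_iff, IsUnit.mul_iff] at h2
    exact h2.1.1.1.1.1.1.2
  have h2 : IsUnit (Nx c q.1.succ (Xz c (pt (rd s x)) (x (.z q)))).det :=
    isUnit_of_dvd_unit (Finset.dvd_prod_of_mem
      (fun q : Fin k × Fin (m + 1) => (Nx c q.1.succ (Xz c (pt (rd s x)) (x (.z q)))).det)
      (Finset.mem_univ q)) h1
  refine det_unit_of_res h2 fun i j => ?_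
  have e1 := congrFun (congrFun (Pool.Agent.Helper94.HK.map_Nx (IsLocalRing.residue ℤ_[p]) c
    q.1.succ (Xz c (ct v) z)) i) j
  have e2 := congrFun (congrFun (Pool.Agent.Helper94.HK.map_Nx (IsLocalRing.residue ℤ_[p]) c
    q.1.succ (Xz c (pt (rd s x)) (x (.z q)))) i) j
  rw [res_Xz c s x v hv q z hz] at e1
  exact e1.trans e2.symm

theorem vm_unit4 (l : Fin k) : IsUnit (Vm c (rd s x) l).det := by
  have h1 : IsUnit (∏ l : Fin k, (Vm c (rd s x) l).det) := by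
    have h2 := h.hPa
    unfold Pa4 at h2
    rw [IsUnit.mul_iff, IsUnit.mul_iff] at h2
    exact h2.1.2
  exact isUnit_of_dvd_unit (Finset.dvd_prod_of_mem (fun l => (Vm c (rd s x) l).det)
    (Finset.mem_univ l)) h1

/-- The matrix of the directions at points in the ball. -/
theorem dir_unit4 (v : Fin k × Fin (m + 1) → ℤ_[p])
    (hv : ∀ q, ‖v q - x (.u q)‖ ≤ (p : ℝ) ^ (-2 : ℤ)) (ζ : Fin k × Fin (m + 1) → ℤ_[p])
    (hζ : ∀ q, ‖ζ q - x (.z q)‖ ≤ (p : ℝ) ^ (-2 : ℤ)) (l : Fin k) :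
    IsUnit (Matrix.of fun b i : Fin (m + 1) =>
      vh c l.succ (Xz c (ct v) (ζ (l, b))) i).det := by
  refine det_unit_of_res (vm_unit4 c s x h l) fun b i => ?_
  have e1 := congrFun (Pool.Agent.Helper94.HK.map_vh (IsLocalRing.residue ℤ_[p]) c l.succ
    (Xz c (ct v) (ζ (l, b)))) i
  have e2 := congrFun (Pool.Agent.Helper94.HK.map_vh (IsLocalRing.residue ℤ_[p]) c l.succ
    (Xz c (pt (rd s x)) (x (.z (l, b))))) i
  rw [res_Xz c s x v hv (l, b) (ζ (l, b)) (hζ (l, b))] at e1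
  exact e1.trans e2.symm

/-- The directions at points in the ball are a basis. -/
theorem span_dir4 (v : Fin k × Fin (m + 1) → ℤ_[p])
    (hv : ∀ q, ‖v q - x (.u q)‖ ≤ (p : ℝ) ^ (-2 : ℤ)) (ζ : Fin k × Fin (m + 1) → ℤ_[p])
    (hζ : ∀ q, ‖ζ q - x (.z q)‖ ≤ (p : ℝ) ^ (-2 : ℤ)) :
    Submodule.span ℚ_[p] (Set.range fun q : Fin k × Fin (m + 1) =>
      (Pool.Agent.Helper24.HN.cst (em q.1 (vh c q.1.succ (Xz c (ct v) (ζ q)))) :
        Fin (k * (m + 1)) → ℚ_[p])) = ⊤ := by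
  rw [eq_top_iff]
  intro X _
  rw [sum_emL X]
  refine Submodule.sum_mem _ fun l _ => ?_
  have h1 := Pool.Agent.Helper55.HM.span_rows (dir_unit4 c s x h v hv ζ hζ l)
  have h2 : (fun i => X (finProdFinEquiv (l, i))) ∈ Submodule.span ℚ_[p]
      (Set.range fun b : Fin (m + 1) =>
        cst ((Matrix.of fun b i : Fin (m + 1) => vh c l.succ (Xz c (ct v) (ζ (l, b))) i) b)) := by
    rw [h1]
    exact Submodule.mem_top
  have h3 := Submodule.mem_map_of_mem (f := emL (p := p) (k := k) l) h2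
  rw [Submodule.map_span] at h3
  refine Submodule.span_mono ?_ h3
  rintro _ ⟨_, ⟨b, rfl⟩, rfl⟩
  refine ⟨(l, b), ?_⟩
  exact (emL_cst l _).symm

/-- The span hypothesis of the dynamics. -/
theorem hsp4 {L : LocM p (k * (m + 1)) (Fin k)} (hL : IsLoc c L)
    {R : RefM L (Lt k m)} (hR : IsRef4 s x R)
    (x1 : V p (k * (m + 1))) (z : Lt k m → ℤ_[p])
    (hx1 : ‖x1 - R.u0‖ ≤ (p : ℝ) ^ (-2 : ℤ))
    (hz : ∀ a, a ≠ R.y → ‖z a - R.z a‖ ≤ (p : ℝ) ^ (-2 : ℤ)) :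
    ⊤ ≤ Submodule.span ℚ_[p]
      ((Pool.Agent.Helper24.HM.lin L R.ty x1 z).v '' {a | a ≠ R.y}) := by
  have hv : ∀ q, ‖tr x1 q - x (.u q)‖ ≤ (p : ℝ) ^ (-2 : ℤ) := fun q => by
    have h1 := (norm_le_pi_norm (x1 - R.u0) (finProdFinEquiv q)).trans hx1
    rw [Pi.sub_apply, hR.u0] at h1
    simpa only [tr, tr', Equiv.symm_apply_apply] using h1
  have hζ : ∀ q : Fin k × Fin (m + 1), ‖z (some q) - x (.z q)‖ ≤ (p : ℝ) ^ (-2 : ℤ) :=
    fun q => by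
      have h1 := hz (some q) (by rw [hR.y]; exact Option.some_ne_none q)
      rw [hR.z] at h1
      exact h1
  rw [← span_dir4 c s x h (tr x1) hv (fun q => z (some q)) hζ]
  refine Submodule.span_mono ?_
  rintro _ ⟨q, rfl⟩
  refine ⟨some q, by rw [hR.y]; exact Option.some_ne_none q, ?_⟩
  have e1 : (Pool.Agent.Helper24.HM.lin L R.ty x1 z).v (some q) =
      cst (L.xi (R.ty (some q)) x1 (z (some q))) := rfl
  rw [e1, hL.hxi, hR.ty]
  rfl

end un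

end Pool.Agent.Helper94.N4
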